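import Pool.Agent.Y472.K.DefsX
import Pool.Agent.W364.FE.Lap

/-!
# Laplace expansion of the integral over a box in several variables

The proof follows `Pool/Agent/W707/FE/AT1.lean`, `AT2.lean`, `AT3.lean`.
-/

set_option autoImplicit false

namespace Pool.Agent.Y306.TKX

open Filter MeasureTheory Metric Set Pool.Agent.Y472.K
open scoped Real Topology Nat Pointwise

variable {ι : Type} [Fintype ι]

lemma norm_cst (v : (ι → ℝ) × ℝ) : ‖cst v‖ = ‖v‖ := by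
  unfold cst
  rw [Prod.norm_def, Prod.norm_def]
  simp only [Pi.norm_def, Complex.nnnorm_real, Complex.norm_real]

omit [Fintype ι] in
lemma cst_cont : Continuous (cst : (ι → ℝ) × ℝ → (ι → ℂ) × ℂ) := by
  unfold cst
  fun_prop

omit [Fintype ι] in
lemma cst_add (ws : ι → ℝ) (u : (ι → ℝ) × ℝ) :
    cst (fun i => ws i + u.1 i, u.2) = cst (ws, 0) + cst u := by
  unfold cst
  ext <;> simp

omit [Fintype ι] in
lemma cst_smul (ν : ℝ) (t : (ι → ℝ) × ℝ) : cst (ν • t) = (ν : ℂ) • cst t := by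
  unfold cst
  ext <;> simp

omit [Fintype ι] in
lemma cst_neg (t : (ι → ℝ) × ℝ) : cst (-t) = -cst t := by
  unfold cst
  ext <;> simp

/-- the weight -/
noncomputable def wt (t : (ι → ℝ) × ℝ) : ℝ := 1 + ‖t‖

lemma one_le_wt (t : (ι → ℝ) × ℝ) : 1 ≤ wt t := by unfold wt; linarith [norm_nonneg t]

lemma wt_pos (t : (ι → ℝ) × ℝ) : 0 < wt t := lt_of_lt_of_le one_pos (one_le_wt t)

lemma wt_cont : Continuous (wt : (ι → ℝ) × ℝ → ℝ) := by
  unfold wt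
  fun_prop

/-- hypotheses -/
structure Hyp (Ψ : (ι → ℂ) × ℂ → ℂ) (p₀ : (ι → ℂ) × ℂ) (D r c T : ℝ) (K : ℕ)
    (τ : ℕ → (ι → ℂ) × ℂ → ℂ) : Prop where
  hr : 0 < r
  hr1 : r ≤ 1
  hc : 0 < c
  hd : DifferentiableOn ℂ Ψ (ball p₀ r)
  h0 : Ψ p₀ = D
  hd0 : ∀ v : (ι → ℝ) × ℝ, HasDerivAt (fun s : ℂ => Ψ (p₀ + s • cst v)) 0 0
  hre : ∀ (v : (ι → ℝ) × ℝ) (s : ℂ), s ≠ 0 → ‖s‖ * ‖v‖ < r →
    ((Ψ (p₀ + s • cst v) - D) / s ^ 2).re ≤ -(c * ‖v‖ ^ 2)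
  ht : ∀ l < K, DifferentiableOn ℂ (τ l) (ball p₀ r)
  hT : ∀ p ∈ ball p₀ r, ∑ l ∈ Finset.range K, ‖τ l p‖ ≤ T

variable {Ψ : (ι → ℂ) × ℂ → ℂ} {p₀ : (ι → ℂ) × ℂ} {D r c T : ℝ} {K : ℕ}
  {τ : ℕ → (ι → ℂ) × ℂ → ℂ}

/-- the potential along a line -/
noncomputable def Bt (Ψ : (ι → ℂ) × ℂ → ℂ) (p₀ : (ι → ℂ) × ℂ) (D : ℝ) (t : (ι → ℝ) × ℝ)
    (z : ℂ) : ℂ := Ψ (p₀ + z • cst t) - D

/-- the quotient by `z ^ 2` -/
noncomputable def gt (Ψ : (ι → ℂ) × ℂ → ℂ) (p₀ : (ι → ℂ) × ℂ) (D : ℝ) (t : (ι → ℝ) × ℝ) :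
    ℂ → ℂ := dslope (dslope (Bt Ψ p₀ D t) 0) 0

lemma lt1 {t : (ι → ℝ) × ℝ} {z : ℂ} (hz : ‖z‖ < r / wt t) : ‖z‖ * ‖t‖ < r ∧ ‖z‖ < r := by
  rw [lt_div_iff₀ (wt_pos t)] at hz
  unfold wt at hz
  constructor <;> nlinarith [norm_nonneg z, norm_nonneg t, mul_nonneg (norm_nonneg z) (norm_nonneg t)]

lemma mem_of {t : (ι → ℝ) × ℝ} {z : ℂ} (hz : ‖z‖ < r / wt t) : p₀ + z • cst t ∈ ball p₀ r := by
  rw [mem_ball, dist_eq_norm]
  have : p₀ + z • cst t - p₀ = z • cst t := by abel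
  rw [this, norm_smul, norm_cst]
  exact (lt1 hz).1

lemma rw_pos (h : Hyp Ψ p₀ D r c T K τ) (t : (ι → ℝ) × ℝ) : 0 < r / wt t :=
  div_pos h.hr (wt_pos t)

lemma ball_nhds (h : Hyp Ψ p₀ D r c T K τ) (t : (ι → ℝ) × ℝ) :
    ball (0:ℂ) (r / wt t) ∈ 𝓝 (0:ℂ) := ball_mem_nhds _ (rw_pos h t)

lemma Bt_diff (h : Hyp Ψ p₀ D r c T K τ) (t : (ι → ℝ) × ℝ) :
    DifferentiableOn ℂ (Bt Ψ p₀ D t) (ball 0 (r / wt t)) := by
  unfold Bt
  apply DifferentiableOn.sub_const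
  refine h.hd.comp (f := fun z : ℂ => p₀ + z • cst t) (by fun_prop) ?_
  intro z hz
  rw [mem_ball, dist_eq_norm, sub_zero] at hz
  exact mem_of hz

lemma Bt_zero (h : Hyp Ψ p₀ D r c T K τ) (t : (ι → ℝ) × ℝ) : Bt Ψ p₀ D t 0 = 0 := by
  simp [Bt, h.h0]

lemma Bt_deriv (h : Hyp Ψ p₀ D r c T K τ) (t : (ι → ℝ) × ℝ) : deriv (Bt Ψ p₀ D t) 0 = 0 :=
  ((h.hd0 t).sub_const (D : ℂ)).deriv

lemma gt_diff (h : Hyp Ψ p₀ D r c T K τ) (t : (ι → ℝ) × ℝ) :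
    DifferentiableOn ℂ (gt Ψ p₀ D t) (ball 0 (r / wt t)) := by
  unfold gt
  rw [Complex.differentiableOn_dslope (ball_nhds h t),
    Complex.differentiableOn_dslope (ball_nhds h t)]
  exact Bt_diff h t

lemma gt_ne (h : Hyp Ψ p₀ D r c T K τ) (t : (ι → ℝ) × ℝ) {z : ℂ} (hz : z ≠ 0) :
    gt Ψ p₀ D t z = Bt Ψ p₀ D t z / z ^ 2 := by
  unfold gt
  rw [dslope_of_ne _ hz, slope_def_field, dslope_of_ne _ hz, slope_def_field, dslope_same,
    Bt_deriv h t, Bt_zero h]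
  field_simp
  ring

lemma gt_re (h : Hyp Ψ p₀ D r c T K τ) (t : (ι → ℝ) × ℝ) {z : ℂ} (hz : ‖z‖ < r / wt t) :
    (gt Ψ p₀ D t z).re ≤ -(c * ‖t‖ ^ 2) := by
  have key : ∀ z : ℂ, z ≠ 0 → ‖z‖ < r / wt t → (gt Ψ p₀ D t z).re ≤ -(c * ‖t‖ ^ 2) := by
    intro z h0 hz
    rw [gt_ne h t h0]
    exact h.hre t z h0 (lt1 hz).1
  rcases eq_or_ne z 0 with h0 | h0
  · subst h0
    have hc : ContinuousAt (gt Ψ p₀ D t) 0 :=
      ((gt_diff h t).differentiableAt (ball_nhds h t)).continuousAt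
    have h1 : Tendsto (fun z => (gt Ψ p₀ D t z).re) (𝓝[≠] 0) (𝓝 (gt Ψ p₀ D t 0).re) :=
      ((Complex.continuous_re.tendsto _).comp hc.tendsto).mono_left nhdsWithin_le_nhds
    refine le_of_tendsto h1 ?_
    filter_upwards [self_mem_nhdsWithin, nhdsWithin_le_nhds (ball_nhds h t)] with z h2 h3
    rw [mem_ball, dist_eq_norm, sub_zero] at h3
    exact key z h2 h3
  · exact key z h0 hz

/-- the family -/
noncomputable def Ef (Ψ : (ι → ℂ) × ℂ → ℂ) (p₀ : (ι → ℂ) × ℂ) (D : ℝ) (K : ℕ)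
    (τ : ℕ → (ι → ℂ) × ℂ → ℂ) (z : ℂ) (t : (ι → ℝ) × ℝ) : ℂ :=
  Complex.exp (gt Ψ p₀ D t z + ∑ l ∈ Finset.range K, τ l (p₀ + z • cst t) * z ^ (2 * l))

lemma Ef_diff (h : Hyp Ψ p₀ D r c T K τ) (t : (ι → ℝ) × ℝ) :
    DifferentiableOn ℂ (fun z => Ef Ψ p₀ D K τ z t) (ball 0 (r / wt t)) := by
  unfold Ef
  apply DifferentiableOn.cexp
  apply (gt_diff h t).add
  apply DifferentiableOn.fun_sum
  intro l hl
  apply DifferentiableOn.mul
  · refine (h.ht l (Finset.mem_range.1 hl)).comp (f := fun z : ℂ => p₀ + z • cst t)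
      (by fun_prop) ?_
    intro z hz
    rw [mem_ball, dist_eq_norm, sub_zero] at hz
    exact mem_of hz
  · fun_prop

/-- the majorant -/
noncomputable def Df (c T : ℝ) (t : (ι → ℝ) × ℝ) : ℝ := Real.exp (-(c * ‖t‖ ^ 2)) * Real.exp T

lemma Ef_le (h : Hyp Ψ p₀ D r c T K τ) (t : (ι → ℝ) × ℝ) (z : ℂ)
    (hz : ‖z‖ < r / wt t) : ‖Ef Ψ p₀ D K τ z t‖ ≤ Df c T t := by
  unfold Ef Df
  rw [Complex.norm_exp, ← Real.exp_add]
  apply Real.exp_le_exp.2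
  rw [Complex.add_re]
  apply add_le_add (gt_re h t hz)
  have hz1 : ‖z‖ ≤ 1 := ((lt1 hz).2.trans_le h.hr1).le
  calc (∑ l ∈ Finset.range K, τ l (p₀ + z • cst t) * z ^ (2 * l)).re
      ≤ ‖∑ l ∈ Finset.range K, τ l (p₀ + z • cst t) * z ^ (2 * l)‖ := Complex.re_le_norm _
    _ ≤ ∑ l ∈ Finset.range K, ‖τ l (p₀ + z • cst t) * z ^ (2 * l)‖ := norm_sum_le _ _
    _ ≤ ∑ l ∈ Finset.range K, ‖τ l (p₀ + z • cst t)‖ := by
        apply Finset.sum_le_sum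
        intro l _
        rw [norm_mul, norm_pow]
        exact mul_le_of_le_one_right (norm_nonneg _) (pow_le_one₀ (norm_nonneg _) hz1)
    _ ≤ T := h.hT _ (mem_of hz)

lemma pow_le_exp (J : ℕ) {b u : ℝ} (hb : 0 < b) (hu : 0 ≤ u) :
    (1 + u) ^ J ≤ (2 ^ J * (J ! : ℝ) / b ^ J * Real.exp b) * Real.exp (b * u ^ 2) := by
  have h1 : 1 + u ≤ 2 * (1 + u ^ 2) := by nlinarith [sq_nonneg (u - 1 / 4)]
  have h2 : (b * (1 + u ^ 2)) ^ J / (J ! : ℝ) ≤ Real.exp (b * (1 + u ^ 2)) :=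
    Real.pow_div_factorial_le_exp _ (by positivity) J
  rw [div_le_iff₀ (by positivity)] at h2
  calc (1 + u) ^ J ≤ (2 * (1 + u ^ 2)) ^ J := pow_le_pow_left₀ (by linarith) h1 J
    _ = 2 ^ J / b ^ J * (b * (1 + u ^ 2)) ^ J := by
        rw [mul_pow, mul_pow]
        field_simp
    _ ≤ 2 ^ J / b ^ J * (Real.exp (b * (1 + u ^ 2)) * (J ! : ℝ)) :=
        mul_le_mul_of_nonneg_left h2 (by positivity)
    _ = _ := by
        rw [mul_add, mul_one, Real.exp_add]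
        ring

lemma haarX : (volume : Measure ((ι → ℝ) × ℝ)).IsAddHaarMeasure :=
  Measure.prod.instIsAddHaarMeasure volume volume

lemma negX : (volume : Measure ((ι → ℝ) × ℝ)).IsNegInvariant := by
  have h2 := haarX (ι := ι)
  infer_instance

lemma fr : Module.finrank ℝ ((ι → ℝ) × ℝ) = Fintype.card ι + 1 := by
  simp

lemma Df_int (hc : 0 < c) (J : ℕ) :
    Integrable (fun t : (ι → ℝ) × ℝ => Df c T t * wt t ^ J) := by
  have hh := haarX (ι := ι)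
  set m : ℕ := Fintype.card ι + 2 with hm
  have h1 : Integrable (fun t : (ι → ℝ) × ℝ => (1 + ‖t‖) ^ (-(m : ℝ))) :=
    integrable_one_add_norm (by rw [fr, hm]; push_cast; linarith)
  set Q : ℝ := 2 ^ (J + m) * ((J + m) ! : ℝ) / c ^ (J + m) * Real.exp c with hQ
  have h2 := h1.const_mul (Real.exp T * Q)
  refine h2.mono' ?_ (Eventually.of_forall fun t => ?_)
  · apply Continuous.aestronglyMeasurable
    unfold Df
    have := wt_cont (ι := ι)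
    fun_prop
  · have hw := wt_pos t
    rw [Real.norm_eq_abs, abs_of_nonneg (by unfold Df; positivity)]
    have h3 := pow_le_exp (J + m) hc (norm_nonneg t)
    have h4 : (1 + ‖t‖) ^ (-(m : ℝ)) = ((1 + ‖t‖) ^ m)⁻¹ := by
      rw [Real.rpow_neg (by positivity), Real.rpow_natCast]
    rw [h4]
    unfold Df
    have h5 : wt t ^ J * (1 + ‖t‖) ^ m ≤ Q * Real.exp (c * ‖t‖ ^ 2) := by
      unfold wt
      rw [← pow_add]
      exact h3
    have h6 : Real.exp (-(c * ‖t‖ ^ 2)) * Real.exp (c * ‖t‖ ^ 2) = 1 := by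
      rw [← Real.exp_add]
      simp
    have hp : 0 < (1 + ‖t‖) ^ m := by positivity
    calc Real.exp (-(c * ‖t‖ ^ 2)) * Real.exp T * wt t ^ J
        = Real.exp (-(c * ‖t‖ ^ 2)) * Real.exp T * (wt t ^ J * (1 + ‖t‖) ^ m) *
            ((1 + ‖t‖) ^ m)⁻¹ := by
          field_simp
      _ ≤ Real.exp (-(c * ‖t‖ ^ 2)) * Real.exp T * (Q * Real.exp (c * ‖t‖ ^ 2)) *
            ((1 + ‖t‖) ^ m)⁻¹ := by
          apply mul_le_mul_of_nonneg_right _ (by positivity)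
          exact mul_le_mul_of_nonneg_left h5 (by positivity)
      _ = (Real.exp (-(c * ‖t‖ ^ 2)) * Real.exp (c * ‖t‖ ^ 2)) * (Real.exp T * Q *
            ((1 + ‖t‖) ^ m)⁻¹) := by ring
      _ = _ := by rw [h6, one_mul]

lemma Ef_real (h : Hyp Ψ p₀ D r c T K τ) {ν : ℝ} (hν : 0 < ν) (t : (ι → ℝ) × ℝ) :
    Ef Ψ p₀ D K τ ν t = Complex.exp ((Ψ (p₀ + (ν : ℂ) • cst t) - D) / (ν : ℂ) ^ 2 +
      ∑ l ∈ Finset.range K, τ l (p₀ + (ν : ℂ) • cst t) * (ν : ℂ) ^ (2 * l)) := by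
  unfold Ef
  have h0 : (ν : ℂ) ≠ 0 := by exact_mod_cast hν.ne'
  rw [gt_ne h t h0]
  rfl

lemma Ef_meas (h : Hyp Ψ p₀ D r c T K τ) {ν : ℝ} (hν : 0 < ν) :
    AEStronglyMeasurable (Ef Ψ p₀ D K τ ν) (volume.restrict {t | ν * wt t < r}) := by
  have hopen : IsOpen {t : (ι → ℝ) × ℝ | ν * wt t < r} :=
    isOpen_lt (continuous_const.mul wt_cont) continuous_const
  apply ContinuousOn.aestronglyMeasurable _ hopen.measurableSet
  have hmem : ∀ t ∈ {t : (ι → ℝ) × ℝ | ν * wt t < r}, ‖(ν : ℂ)‖ < r / wt t := by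
    intro t ht
    rw [Complex.norm_real, Real.norm_eq_abs, abs_of_pos hν, lt_div_iff₀ (wt_pos t)]
    exact ht
  have hc : ContinuousOn (fun t : (ι → ℝ) × ℝ => p₀ + (ν : ℂ) • cst t) {t | ν * wt t < r} := by
    have := cst_cont (ι := ι)
    fun_prop
  have h1 : ContinuousOn (fun t : (ι → ℝ) × ℝ =>
      Complex.exp ((Ψ (p₀ + (ν : ℂ) • cst t) - D) / (ν : ℂ) ^ 2 +
      ∑ l ∈ Finset.range K, τ l (p₀ + (ν : ℂ) • cst t) * (ν : ℂ) ^ (2 * l)))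
      {t | ν * wt t < r} := by
    apply ContinuousOn.cexp
    apply ContinuousOn.add
    · apply ContinuousOn.div_const
      apply ContinuousOn.sub _ continuousOn_const
      exact h.hd.continuousOn.comp hc (fun t ht => mem_of (hmem t ht))
    · apply continuousOn_finsetSum
      intro l hl
      apply ContinuousOn.mul _ continuousOn_const
      exact (h.ht l (Finset.mem_range.1 hl)).continuousOn.comp hc
        (fun t ht => mem_of (hmem t ht))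
  exact h1.congr (fun t _ => Ef_real h hν t)

/-- the coefficients -/
noncomputable def cf (Ψ : (ι → ℂ) × ℂ → ℂ) (p₀ : (ι → ℂ) × ℂ) (D : ℝ) (K : ℕ)
    (τ : ℕ → (ι → ℂ) × ℂ → ℂ) (j : ℕ) : ℂ :=
  ∫ t, iteratedDeriv j (fun z => Ef Ψ p₀ D K τ z t) 0 / (j ! : ℂ)

theorem lap_apply (h : Hyp Ψ p₀ D r c T K τ) {ρ : ℝ}
    (hρ : 0 < ρ) (J : ℕ) : ∃ C : ℝ, ∀ (ν : ℝ) (S : Set ((ι → ℝ) × ℝ)), 0 < ν → MeasurableSet S →
    (∀ t ∈ S, ν * wt t ≤ r / 2) → (∀ t, t ∉ S → ρ ≤ ν * wt t) →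
    ‖(∫ t in S, Ef Ψ p₀ D K τ ν t) - ∑ j ∈ Finset.range J, (ν : ℂ) ^ j * cf Ψ p₀ D K τ j‖ ≤
      C * ν ^ J :=
  Pool.Agent.W364.FE.lap ((ι → ℝ) × ℝ) volume wt (Df c T) (Ef Ψ p₀ D K τ) r ρ
    h.hr hρ wt_cont.measurable one_le_wt
    (Df_int h.hc) (fun _ hν => Ef_meas h hν) (Ef_diff h) (Ef_le h) J

/-! ### parity -/

lemma gt_neg (h : Hyp Ψ p₀ D r c T K τ) (t : (ι → ℝ) × ℝ) (z : ℂ) :
    gt Ψ p₀ D (-t) z = gt Ψ p₀ D t (-z) := by
  have key : ∀ z : ℂ, z ≠ 0 → gt Ψ p₀ D (-t) z = gt Ψ p₀ D t (-z) := by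
    intro z hz
    rw [gt_ne h _ hz, gt_ne h _ (neg_ne_zero.2 hz)]
    unfold Bt
    rw [cst_neg, smul_neg, neg_smul]
    ring
  rcases eq_or_ne z 0 with h0 | h0
  · subst h0
    rw [neg_zero]
    have c1 : ContinuousAt (gt Ψ p₀ D (-t)) 0 :=
      ((gt_diff h (-t)).differentiableAt (ball_nhds h (-t))).continuousAt
    have c2 : ContinuousAt (gt Ψ p₀ D t) (-0) := by
      rw [neg_zero]
      exact ((gt_diff h t).differentiableAt (ball_nhds h t)).continuousAt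
    have c3 : ContinuousAt (fun z => gt Ψ p₀ D t (-z)) 0 :=
      ContinuousAt.comp (g := gt Ψ p₀ D t) (f := fun z => -z) c2 continuousAt_neg
    have t1 := c1.tendsto.mono_left (nhdsWithin_le_nhds (s := {0}ᶜ))
    have t2 := c3.tendsto.mono_left (nhdsWithin_le_nhds (s := {0}ᶜ))
    simp only [neg_zero] at t2
    refine tendsto_nhds_unique t1 (t2.congr' ?_)
    filter_upwards [self_mem_nhdsWithin] with z hz
    exact (key z hz).symm
  · exact key z h0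

lemma Ef_neg (h : Hyp Ψ p₀ D r c T K τ) (t : (ι → ℝ) × ℝ) (z : ℂ) :
    Ef Ψ p₀ D K τ z (-t) = Ef Ψ p₀ D K τ (-z) t := by
  unfold Ef
  rw [gt_neg h, cst_neg, smul_neg, neg_smul]
  congr 2
  apply Finset.sum_congr rfl
  intro l _
  rw [pow_mul, pow_mul, neg_sq]

lemma cf_odd (h : Hyp Ψ p₀ D r c T K τ) {j : ℕ} (hj : Odd j) : cf Ψ p₀ D K τ j = 0 := by
  have h1 : cf Ψ p₀ D K τ j = -cf Ψ p₀ D K τ j := by
    have := negX (ι := ι)
    conv_lhs => rw [cf, ← integral_neg_eq_self]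
    rw [cf, ← integral_neg]
    congr 1
    ext t
    have h2 : (fun z => Ef Ψ p₀ D K τ z (-t)) = fun z => (fun z => Ef Ψ p₀ D K τ z t) (-z) := by
      ext z
      exact Ef_neg h t z
    have h4 := iteratedDeriv_comp_neg j (fun z => Ef Ψ p₀ D K τ z t) 0
    rw [h2]
    refine (congrArg (· / (j ! : ℂ)) h4).trans ?_
    rw [neg_zero, hj.neg_one_pow]
    simp [neg_div]
  have h3 : (2:ℂ) * cf Ψ p₀ D K τ j = 0 := by linear_combination h1
  simpa using h3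

/-! ### the box -/

lemma bx_norm_le {ρ ρ' m : ℝ} (h1 : ρ ≤ m) (h2 : ρ' ≤ m) (hm : 0 ≤ m) {u : (ι → ℝ) × ℝ}
    (hu : u ∈ bx ι ρ ρ') : ‖u‖ ≤ m := by
  rw [Prod.norm_def]
  refine max_le ((pi_norm_le_iff_of_nonneg hm).2 fun i => (hu.1 i).trans h1) (hu.2.trans h2)

lemma lt_norm_of_not_bx {ρ ρ' m : ℝ} (h1 : m ≤ ρ) (h2 : m ≤ ρ') {u : (ι → ℝ) × ℝ}
    (hu : u ∉ bx ι ρ ρ') : m < ‖u‖ := by
  by_contra hlt
  push Not at hlt
  apply hu
  have h3 : ‖u.1‖ ≤ ‖u‖ := norm_fst_le u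
  have h4 : ‖u.2‖ ≤ ‖u‖ := norm_snd_le u
  refine ⟨fun i => ?_, ?_⟩
  · have := norm_le_pi_norm u.1 i
    rw [Real.norm_eq_abs] at this
    linarith
  · rw [Real.norm_eq_abs] at h4
    linarith

omit [Fintype ι] in
lemma bx_closed (ρ ρ' : ℝ) : IsClosed (bx ι ρ ρ') := by
  unfold bx
  have h1 : {u : (ι → ℝ) × ℝ | (∀ i, |u.1 i| ≤ ρ) ∧ |u.2| ≤ ρ'} =
      (⋂ i, {u : (ι → ℝ) × ℝ | |u.1 i| ≤ ρ}) ∩ {u : (ι → ℝ) × ℝ | |u.2| ≤ ρ'} := by
    ext u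
    simp
  rw [h1]
  apply IsClosed.inter
  · apply isClosed_iInter
    intro i
    exact isClosed_le (by fun_prop) continuous_const
  · exact isClosed_le (by fun_prop) continuous_const

omit [Fintype ι] in
lemma smul_mem {ν ρ ρ' : ℝ} (hν : 0 < ν) {t : (ι → ℝ) × ℝ} :
    t ∈ ν⁻¹ • bx ι ρ ρ' ↔ ν • t ∈ bx ι ρ ρ' := by
  rw [mem_inv_smul_set_iff₀ hν.ne']

/-- scaling -/
lemma scale {N : ℕ} (hN : 0 < N) {ws : ι → ℝ} (h : Hyp Ψ (cst (ws, 0)) D r c T K τ) (ρ ρ' : ℝ) :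
    ((√(N : ℝ) : ℝ) : ℂ) ^ (Fintype.card ι + 1) *
      (∫ u in bx ι ρ ρ', FX Ψ D τ K N (cst (fun i => ws i + u.1 i, u.2))) =
        ∫ t in (((√(N : ℝ))⁻¹)⁻¹ • bx ι ρ ρ'),
          Ef Ψ (cst (ws, 0)) D K τ (((√(N : ℝ))⁻¹ : ℝ) : ℂ) t := by
  have := haarX (ι := ι)
  have hNp : (0 : ℝ) < N := by exact_mod_cast hN
  have hs : 0 < √(N : ℝ) := Real.sqrt_pos.2 hNp
  set ν : ℝ := (√(N : ℝ))⁻¹ with hν
  have hν0 : 0 < ν := by positivity
  have hν2 : ν ^ 2 = (N : ℝ)⁻¹ := by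
    rw [hν, inv_pow, Real.sq_sqrt hNp.le]
  have h1 := Measure.setIntegral_comp_smul_of_pos (μ := (volume : Measure ((ι → ℝ) × ℝ)))
    (fun u : (ι → ℝ) × ℝ => FX Ψ D τ K N (cst (fun i => ws i + u.1 i, u.2)))
    (ν⁻¹ • bx ι ρ ρ') hν0
  rw [smul_inv_smul₀ hν0.ne', fr] at h1
  have h2 : ∀ t : (ι → ℝ) × ℝ, FX Ψ D τ K N (cst (fun i => ws i + (ν • t).1 i, (ν • t).2)) =
      Ef Ψ (cst (ws, 0)) D K τ (ν : ℂ) t := by
    intro t
    rw [Ef_real h hν0, cst_add, cst_smul]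
    have hN' : (N : ℂ) ≠ 0 := by exact_mod_cast hN.ne'
    have hc2 : (ν : ℂ) ^ 2 = (N : ℂ)⁻¹ := by
      rw [← Complex.ofReal_pow, hν2]
      push_cast
      rfl
    unfold FX
    congr 1
    congr 1
    · rw [hc2]
      field_simp
    · apply Finset.sum_congr rfl
      intro l _
      rw [pow_mul, hc2, inv_pow, div_eq_mul_inv]
  simp only [h2] at h1
  rw [h1, Complex.real_smul]
  have e2 : ((√(N : ℝ) : ℝ) : ℂ) = (ν : ℂ)⁻¹ := by
    rw [hν]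
    push_cast
    rw [inv_inv]
  rw [e2]
  push_cast
  rw [inv_pow]

/-- the expansion -/
theorem loc_int {ws : ι → ℝ} (h : Hyp Ψ (cst (ws, 0)) D r c T K τ) {ρ ρ' : ℝ}
    (hρ : 0 < ρ) (hρ1 : ρ ≤ r / 4) (hρ' : 0 < ρ') (hρ2 : ρ' ≤ r / 4) (J : ℕ) :
    ∃ C : ℝ, ∀ᶠ N : ℕ in atTop,
    ‖((√(N : ℝ) : ℝ) : ℂ) ^ (Fintype.card ι + 1) *
      (∫ u in bx ι ρ ρ', FX Ψ D τ K N (cst (fun i => ws i + u.1 i, u.2))) -
      ∑ j ∈ Finset.range J, cf Ψ (cst (ws, 0)) D K τ (2 * j) / (N : ℂ) ^ j‖ ≤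
      C / (N : ℝ) ^ J := by
  obtain ⟨C, hC⟩ := lap_apply h (lt_min hρ hρ') (2 * J)
  refine ⟨C, ?_⟩
  have hr := h.hr
  have e1 : ∀ᶠ N : ℕ in atTop, (√(N : ℝ))⁻¹ ≤ r / 4 := by
    have : Tendsto (fun N : ℕ => (√(N : ℝ))⁻¹) atTop (𝓝 0) :=
      tendsto_inv_atTop_zero.comp (Real.tendsto_sqrt_atTop.comp tendsto_natCast_atTop_atTop)
    exact (this.eventually_lt_const (by positivity)).mono (fun N hN => hN.le)
  filter_upwards [e1, eventually_gt_atTop 0] with N h1 hN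
  have hNp : (0 : ℝ) < N := by exact_mod_cast hN
  have hs : 0 < √(N : ℝ) := Real.sqrt_pos.2 hNp
  rw [scale hN h ρ ρ']
  set ν : ℝ := (√(N : ℝ))⁻¹ with hν
  have hν0 : 0 < ν := by positivity
  have hν2 : ν ^ 2 = (N : ℝ)⁻¹ := by
    rw [hν, inv_pow, Real.sq_sqrt hNp.le]
  have hc2 : (ν : ℂ) ^ 2 = (N : ℂ)⁻¹ := by
      rw [← Complex.ofReal_pow, hν2]
      push_cast
      rfl
  have h2 := hC ν (ν⁻¹ • bx ι ρ ρ') hν0
    (((bx_closed ρ ρ').smul_of_ne_zero (inv_ne_zero hν0.ne')).measurableSet)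
    (fun t ht => by
      rw [smul_mem hν0] at ht
      have h3 := bx_norm_le hρ1 hρ2 (by positivity) ht
      rw [norm_smul, Real.norm_eq_abs, abs_of_pos hν0] at h3
      unfold wt
      linarith)
    (fun t ht => by
      rw [smul_mem hν0] at ht
      have h3 := lt_norm_of_not_bx (min_le_left ρ ρ') (min_le_right ρ ρ') ht
      rw [norm_smul, Real.norm_eq_abs, abs_of_pos hν0] at h3
      unfold wt
      linarith)
  have h3 : ∑ j ∈ Finset.range (2 * J), (ν : ℂ) ^ j * cf Ψ (cst (ws, 0)) D K τ j =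
      ∑ j ∈ Finset.range J, cf Ψ (cst (ws, 0)) D K τ (2 * j) / (N : ℂ) ^ j := by
    clear h2 hC
    induction J with
    | zero => simp
    | succ J ih =>
      rw [show 2 * (J + 1) = 2 * J + 1 + 1 by ring, Finset.sum_range_succ, Finset.sum_range_succ,
        Finset.sum_range_succ, ih, cf_odd h (odd_two_mul_add_one J), mul_zero, add_zero, pow_mul,
        hc2, inv_pow]
      rw [div_eq_mul_inv]
      ring
  rw [h3] at h2
  refine h2.trans (le_of_eq ?_)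
  rw [pow_mul, hν2, inv_pow, div_eq_mul_inv]

/-- the derivative along a line vanishes -/
lemma hd0_of {ws : ι → ℝ} {R S : QuadraticForm ℝ ((ι → ℝ) × ℝ)} (hA : AX Ψ ws D R S)
    (v : (ι → ℝ) × ℝ) : HasDerivAt (fun s : ℂ => Ψ (cst (ws, 0) + s • cst v)) 0 0 := by
  obtain ⟨r, C, hr, htay⟩ := hA.tay
  have hdiff : DifferentiableAt ℂ (fun s : ℂ => Ψ (cst (ws, 0) + s • cst v)) 0 := by
    have h1 : DifferentiableAt ℂ Ψ (cst (ws, 0) + (0 : ℂ) • cst v) := by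
      simpa using hA.an.differentiableAt
    exact DifferentiableAt.comp (g := Ψ) (f := fun s : ℂ => cst (ws, 0) + s • cst v) 0 h1
      (by fun_prop)
  have h2 := hdiff.hasDerivAt
  have h3 : HasDerivAt (fun s : ℝ => Ψ (cst (ws, 0) + (s : ℂ) • cst v))
      (deriv (fun s : ℂ => Ψ (cst (ws, 0) + s • cst v)) 0) 0 := by
    have h2' : HasDerivAt (fun s : ℂ => Ψ (cst (ws, 0) + s • cst v))
        (deriv (fun s : ℂ => Ψ (cst (ws, 0) + s • cst v)) 0) ((0 : ℝ) : ℂ) := by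
      rw [Complex.ofReal_zero]
      exact h2
    exact h2'.comp_ofReal
  have hC : Ψ (cst (ws, 0)) = D := by
    have := htay 0 (by simpa using hr)
    simp only [Prod.fst_zero, Pi.zero_apply, add_zero, Prod.snd_zero, map_zero,
      Complex.ofReal_zero, mul_zero, norm_zero] at this
    have h5 : ‖Ψ (cst (ws, 0)) - D‖ ≤ 0 := by
      simpa using this
    exact sub_eq_zero.1 (norm_le_zero_iff.1 h5)
  have h4 : HasDerivAt (fun s : ℝ => Ψ (cst (ws, 0) + (s : ℂ) • cst v)) 0 0 := by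
    have hO : (fun s : ℝ => Ψ (cst (ws, 0) + (s : ℂ) • cst v) - D) =O[𝓝 0]
        fun s : ℝ => ‖s - 0‖ ^ 2 := by
      apply Asymptotics.IsBigO.of_bound (|R v| + |S v| + |C| * ‖v‖ ^ 3)
      have hev : ∀ᶠ s : ℝ in 𝓝 0, ‖s • v‖ < r ∧ |s| < 1 := by
        have t1 : Tendsto (fun s : ℝ => ‖s • v‖) (𝓝 0) (𝓝 0) := by
          have : Continuous (fun s : ℝ => ‖s • v‖) := by fun_prop
          simpa using this.tendsto 0
        have t2 : Tendsto (fun s : ℝ => |s|) (𝓝 0) (𝓝 0) := by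
          simpa using continuous_abs.tendsto (0 : ℝ)
        exact (t1.eventually_lt_const hr).and (t2.eventually_lt_const one_pos)
      filter_upwards [hev] with s hs
      have h5 := htay (s • v) hs.1
      rw [cst_add, cst_smul, QuadraticMap.map_smul, QuadraticMap.map_smul, norm_smul,
        Real.norm_eq_abs] at h5
      have e0 : ‖‖s - 0‖ ^ 2‖ = |s| ^ 2 := by
        rw [sub_zero, Real.norm_eq_abs, Real.norm_eq_abs]
        exact abs_of_nonneg (by positivity)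
      rw [e0]
      have h6 : Ψ (cst (ws, 0) + (s : ℂ) • cst v) - D =
          (Ψ (cst (ws, 0) + (s : ℂ) • cst v) - D + ((s * s) • R v : ℝ) +
            Complex.I * ((s * s) • S v : ℝ)) -
          (((s * s) • R v : ℝ) + Complex.I * ((s * s) • S v : ℝ)) := by ring
      rw [h6]
      have h7 : ‖(((s * s) • R v : ℝ) : ℂ) + Complex.I * ((s * s) • S v : ℝ)‖ ≤
          (|R v| + |S v|) * |s| ^ 2 := by
        refine (norm_add_le _ _).trans ?_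
        have e1 : |s * s| = |s| ^ 2 := by rw [abs_mul]; ring
        rw [norm_mul, Complex.norm_I, one_mul, Complex.norm_real, Complex.norm_real,
          Real.norm_eq_abs, Real.norm_eq_abs, smul_eq_mul, smul_eq_mul, abs_mul (s * s),
          abs_mul (s * s), e1]
        apply le_of_eq
        ring
      have h8 : C * (|s| * ‖v‖) ^ 3 ≤ |C| * ‖v‖ ^ 3 * |s| ^ 2 := by
        have h9 : |s| ^ 3 ≤ |s| ^ 2 := pow_le_pow_of_le_one (abs_nonneg s) hs.2.le (by norm_num)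
        calc C * (|s| * ‖v‖) ^ 3 ≤ |C| * (|s| * ‖v‖) ^ 3 :=
              mul_le_mul_of_nonneg_right (le_abs_self C) (by positivity)
          _ = |C| * ‖v‖ ^ 3 * |s| ^ 3 := by ring
          _ ≤ |C| * ‖v‖ ^ 3 * |s| ^ 2 := mul_le_mul_of_nonneg_left h9 (by positivity)
      refine (norm_sub_le _ _).trans ?_
      linarith
    have h5 := hO.hasFDerivAt (𝕜 := ℝ) (by norm_num)
    have h6 := h5.hasDerivAt
    have h7 := h6.add_const (D : ℂ)
    simpa using h7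
  have h5 := h3.unique h4
  rw [h5] at h2
  exact h2

lemma h0_of {ws : ι → ℝ} {R S : QuadraticForm ℝ ((ι → ℝ) × ℝ)} (hA : AX Ψ ws D R S) :
    Ψ (cst (ws, 0)) = D := by
  obtain ⟨r, C, hr, htay⟩ := hA.tay
  have := htay 0 (by simpa using hr)
  have h5 : ‖Ψ (cst (ws, 0)) - D‖ ≤ 0 := by
    simpa using this
  exact sub_eq_zero.1 (norm_le_zero_iff.1 h5)

theorem scl : S_SCL := by
  intro hG ι _ Ψ ws D R S hA K τ hτ
  obtain ⟨r₁, c, C, hr₁, hc, hd, hre, -⟩ := hG ι Ψ ws D R S hA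
  -- the functions `τ`
  have hev : ∀ᶠ p in 𝓝 (cst (ws, 0)), (∀ l ∈ Finset.range K, DifferentiableAt ℂ (τ l) p) ∧
      ∑ l ∈ Finset.range K, ‖τ l p‖ < (∑ l ∈ Finset.range K, ‖τ l (cst (ws, 0))‖) + 1 := by
    apply Eventually.and
    · rw [Filter.eventually_all_finset]
      intro l hl
      exact (hτ l (Finset.mem_range.1 hl)).eventually_analyticAt.mono
        (fun p hp => hp.differentiableAt)
    · have hcont : ContinuousAt (fun p => ∑ l ∈ Finset.range K, ‖τ l p‖) (cst (ws, 0)) := by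
        apply tendsto_finsetSum
        intro l hl
        exact (hτ l (Finset.mem_range.1 hl)).continuousAt.norm
      exact hcont.eventually_lt_const (by linarith)
  obtain ⟨r₂, hr₂, hball⟩ := Metric.eventually_nhds_iff_ball.1 hev
  set T : ℝ := (∑ l ∈ Finset.range K, ‖τ l (cst (ws, 0))‖) + 1 with hT
  set r : ℝ := min (min r₁ r₂) 1 with hr
  have hr0 : 0 < r := lt_min (lt_min hr₁ hr₂) one_pos
  have h1 : r ≤ r₁ := (min_le_left _ _).trans (min_le_left _ _)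
  have h2 : r ≤ r₂ := (min_le_left _ _).trans (min_le_right _ _)
  have hH : Hyp Ψ (cst (ws, 0)) D r c T K τ :=
    { hr := hr0
      hr1 := min_le_right _ _
      hc := hc
      hd := hd.mono (ball_subset_ball (by linarith))
      h0 := h0_of hA
      hd0 := hd0_of hA
      hre := fun v s hs hsv => hre v s hs (lt_of_lt_of_le hsv h1)
      ht := fun l hl p hp =>
        ((hball p (ball_subset_ball h2 hp)).1 l
          (Finset.mem_range.2 hl)).differentiableWithinAt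
      hT := fun p hp => (hball p (ball_subset_ball h2 hp)).2.le }
  refine ⟨r / 4, by positivity, fun ρ ρ' hρ hρ1 hρ' hρ2 => ?_⟩
  exact ⟨fun j => cf Ψ (cst (ws, 0)) D K τ (2 * j), fun J => loc_int hH hρ hρ1 hρ' hρ2 J⟩

end Pool.Agent.Y306.TKX
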